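import Pool.Agent.N207.GQ.Stm

/-!
# GQ/SUB: the field generated by the images of the variables (helper712; the proof follows
`Pool.Agent.Y890.MV.exists_fieldM`)
-/

set_option autoImplicit false

namespace Pool.Agent.N712.GQ

theorem sub : Pool.Agent.N207.GQ.StmSub := by
  intro B0 L0 σ _ _ _ φ hφ
  classical
  have hprime : (RingHom.ker φ).IsPrime := RingHom.ker_isPrime φ
  let B : Type := MvPolynomial σ B0 ⧸ RingHom.ker φ
  let iB : CommRing B := Ideal.Quotient.commRing (RingHom.ker φ)
  have hdom : IsDomain B := Ideal.Quotient.isDomain (RingHom.ker φ)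
  let L : Type := FractionRing B
  let F : σ → L := fun i => algebraMap B L (Ideal.Quotient.mk (RingHom.ker φ) (MvPolynomial.X i))
  have hF : ∀ p : MvPolynomial σ B0,
      MvPolynomial.aeval F p = algebraMap B L (Ideal.Quotient.mk (RingHom.ker φ) p) := by
    intro p
    induction p using MvPolynomial.induction_on with
    | C a =>
      rw [MvPolynomial.aeval_C, IsScalarTower.algebraMap_apply B0 B L]
      rfl
    | add p q hp hq => rw [map_add, map_add, map_add, hp, hq]
    | mul_X p i hp => rw [map_mul, map_mul, map_mul, hp, MvPolynomial.aeval_X]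
  have hinj : Function.Injective (algebraMap B L) := IsFractionRing.injective B L
  have hz : ∀ p : MvPolynomial σ B0, MvPolynomial.aeval F p = 0 ↔ φ p = 0 := by
    intro p
    rw [hF, map_eq_zero_iff _ hinj, Ideal.Quotient.eq_zero_iff_mem, RingHom.mem_ker]
  refine ⟨L, inferInstance, inferInstance, ?_, F, hz, ?_⟩
  · rw [faithfulSMul_iff_algebraMap_injective, injective_iff_map_eq_zero]
    intro a ha
    have h1 : MvPolynomial.aeval F (MvPolynomial.C a) = 0 := by
      rw [MvPolynomial.aeval_C]
      exact ha
    rw [hz] at h1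
    refine hφ ?_
    simp only
    rw [h1, map_zero, map_zero]
  · intro l
    obtain ⟨a, b, hb, rfl⟩ := IsFractionRing.div_surjective (A := B) l
    obtain ⟨p, rfl⟩ := Ideal.Quotient.mk_surjective a
    obtain ⟨q, rfl⟩ := Ideal.Quotient.mk_surjective b
    have hq : MvPolynomial.aeval F q ≠ 0 := by
      rw [hF, Ne, map_eq_zero_iff _ hinj]
      exact nonZeroDivisors.ne_zero hb
    refine ⟨p, q, hq, ?_⟩
    rw [← hF, ← hF, mul_div_cancel₀ _ hq]

end Pool.Agent.N712.GQ
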